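import Pool.Agent.Lib.MP_edb5be_nt.TS.H17.BC1
import Pool.Agent.Lib.MP_edb5be_nt.ND.H26.Main

/-!
# Module BC: the first passages below all the levels avoid small sets of residue classes
(helper17)
-/

set_option autoImplicit false

namespace Pool.Agent.Lib.MP_edb5be_nt.TS.H17

open Finset Filter Topology Pool.Agent.Lib.MP_0a5adf_nt.TP Pool.Agent.Lib.MP_edb5be_nt.ND
  Pool.Agent.Lib.MP_edb5be_nt.TS

open Classical in
/-- all heights, unconditional -/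
theorem bc_mainT (A : ℕ) :
    ∃ (C : ℝ) (a₀ : ℕ), 0 < C ∧ ∀ (d : Bool) (a k : ℕ) (E : Set ℕ) (p : ℝ), a₀ ≤ a →
      k ≤ a / 20 → (∀ m n : ℕ, m ≡ n [MOD 2 ^ k] → (m ∈ E ↔ n ∈ E)) →
      (((range (2 ^ k)).filter fun r => r ∈ E).card : ℝ) ≤ p * 2 ^ k →
      ∀ u : ℝ, (a : ℝ) ≤ u + 1 → Gd (HB d a E) u ≤ C * (a * p + 1 / (a : ℝ) ^ A) :=
  bc_main cntParT badnT pathT tgpT H75.comp H63.lip A

theorem bcT : BCStatement := bc cntParT badnT pathT tgpT H75.comp H63.lip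

end Pool.Agent.Lib.MP_edb5be_nt.TS.H17
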