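import Pool.Agent.Lib.MP_edb5be_nt.TS.Iface
import Pool.Agent.Lib.MP_edb5be_nt.ND.Iface3

/-!
# Module BC, part 1: the block estimate below `2 ^ (1.22 a)` (helper17)
-/

set_option autoImplicit false

namespace Pool.Agent.Lib.MP_edb5be_nt.TS.H17

open Finset Filter Topology Pool.Agent.Lib.MP_0a5adf_nt.TP Pool.Agent.Lib.MP_edb5be_nt.ND
  Pool.Agent.Lib.MP_edb5be_nt.TS

/-! ### Invariance -/

/-- `HB d a E` is invariant above `2 ^ a` -/
theorem hb_inv (d : Bool) (a : ℕ) (E : Set ℕ) : InvA d (HB d a E) a := by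
  intro n hn
  constructor
  · rintro ⟨i, h1, h2, h3⟩
    rcases i with _ | i
    · exact absurd h1 (by simpa using hn)
    · refine ⟨i, ?_, fun j hj => ?_, ?_⟩
      · rw [← Function.iterate_succ_apply]; exact h1
      · rw [← Function.iterate_succ_apply]; exact h2 (j + 1) (by omega)
      · rw [← Function.iterate_succ_apply]; exact h3
  · rintro ⟨i, h1, h2, h3⟩
    refine ⟨i + 1, ?_, fun j hj => ?_, ?_⟩
    · rw [Function.iterate_succ_apply]; exact h1
    · rcases j with _ | j
      · exact hn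
      · rw [Function.iterate_succ_apply]; exact h2 j (by omega)
    · rw [Function.iterate_succ_apply]; exact h3

/-! ### Words -/

theorem T_modEq (d : Bool) {m n k : ℕ} (h : m ≡ n [MOD 2 ^ (k + 1)]) :
    T d m ≡ T d n [MOD 2 ^ k] := by
  have h2 : m % 2 = n % 2 := Nat.ModEq.of_dvd (dvd_pow_self 2 (Nat.succ_ne_zero k)) h
  have h3 := (Nat.modEq_iff_dvd).1 h
  rw [Nat.modEq_iff_dvd]
  obtain ⟨c, hc⟩ := h3
  push_cast at hc ⊢
  rw [pow_succ, mul_right_comm] at hc
  rcases Nat.mod_two_eq_zero_or_one m with hm | hm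
  · have hn : n % 2 = 0 := by omega
    have e1 : T d m = m / 2 := if_pos hm
    have e2 : T d n = n / 2 := if_pos hn
    refine ⟨c, ?_⟩
    rw [e1, e2]
    generalize (2 : ℤ) ^ k * c = y at hc ⊢
    omega
  · have hn : n % 2 = 1 := by omega
    have hm' : ¬ m % 2 = 0 := by omega
    have hn' : ¬ n % 2 = 0 := by omega
    refine ⟨3 * c, ?_⟩
    rw [mul_left_comm]
    cases d
    · have e1 : T false m = (3 * m - 1) / 2 := by simp [T, hm']
      have e2 : T false n = (3 * n - 1) / 2 := by simp [T, hn']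
      rw [e1, e2]
      generalize (2 : ℤ) ^ k * c = y at hc ⊢
      omega
    · have e1 : T true m = (3 * m + 1) / 2 := by simp [T, hm']
      have e2 : T true n = (3 * n + 1) / 2 := by simp [T, hn']
      rw [e1, e2]
      generalize (2 : ℤ) ^ k * c = y at hc ⊢
      omega

theorem T_iter_modEq (d : Bool) (j : ℕ) : ∀ {m n k : ℕ}, m ≡ n [MOD 2 ^ (k + j)] →
    (T d)^[j] m ≡ (T d)^[j] n [MOD 2 ^ k] := by
  induction j with
  | zero => intro m n k h; exact h
  | succ j ih =>
    intro m n k h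
    rw [Function.iterate_succ_apply, Function.iterate_succ_apply]
    exact ih (T_modEq d h)

theorem par_mod (d : Bool) {m n k : ℕ} (h : m ≡ n [MOD 2 ^ k]) : par d m k = par d n k := by
  unfold par
  refine filter_congr fun x hx => ?_
  rw [mem_Icc] at hx
  have h1 : m ≡ n [MOD 2 ^ (1 + (k - x))] :=
    Nat.ModEq.of_dvd (pow_dvd_pow 2 (by omega)) h
  have h2 := T_iter_modEq d (k - x) h1
  rw [pow_one] at h2
  unfold Nat.ModEq at h2
  rw [h2]

theorem par_low (d : Bool) (N i k : ℕ) :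
    (par d N (i + k)).filter (fun x => x ≤ k) = par d ((T d)^[i] N) k := by
  ext x
  unfold par
  simp only [mem_filter, mem_Icc]
  constructor
  · rintro ⟨⟨⟨h1, h2⟩, h3⟩, h4⟩
    refine ⟨⟨h1, h4⟩, ?_⟩
    rw [← Function.iterate_add_apply, show k - x + i = i + k - x by omega]
    exact h3
  · rintro ⟨⟨h1, h2⟩, h3⟩
    refine ⟨⟨⟨h1, by omega⟩, ?_⟩, h2⟩
    rw [← Function.iterate_add_apply, show k - x + i = i + k - x by omega] at h3
    exact h3

/-- the number of `N` whose `i`-th iterate starts with a word of `F` -/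
theorem count_iter (hC : CntParStatement) (d : Bool) {i k L : ℕ} (h : i + k ≤ L)
    (F : Finset (Finset ℕ)) :
    ((Ico (2 ^ L) (2 ^ (L + 1))).filter fun N => par d ((T d)^[i] N) k ∈ F).card
      ≤ 2 ^ (L - k) * F.card := by
  classical
  set F' := (Icc 1 (i + k)).powerset.filter fun S => S.filter (fun x => x ≤ k) ∈ F with hF'
  have h1 : ((Ico (2 ^ L) (2 ^ (L + 1))).filter fun N => par d ((T d)^[i] N) k ∈ F)
      = (Ico (2 ^ L) (2 ^ (L + 1))).filter fun N => par d N (i + k) ∈ F' := by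
    refine filter_congr fun N _ => ?_
    rw [hF', mem_filter, par_low, mem_powerset]
    exact ⟨fun h => ⟨filter_subset _ _, h⟩, fun h => h.2⟩
  rw [h1, hC d (i + k) L F' h (filter_subset _ _)]
  have h2 : F'.card ≤ F.card * 2 ^ i := by
    calc F'.card ≤ (F ×ˢ (Ioc k (i + k)).powerset).card := by
          refine card_le_card_of_injOn
            (fun S => (S.filter (fun x => x ≤ k), S.filter (fun x => ¬ x ≤ k))) ?_ ?_
          · intro S hS
            rw [mem_coe, hF', mem_filter, mem_powerset] at hS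
            rw [mem_coe, mem_product, mem_powerset]
            refine ⟨hS.2, fun x hx => ?_⟩
            rw [mem_filter] at hx
            have := mem_Icc.1 (hS.1 hx.1)
            rw [mem_Ioc]
            exact ⟨by omega, this.2⟩
          · intro S _ S' _ hSS
            rw [Prod.mk.injEq] at hSS
            rw [← filter_union_filter_not_eq (fun x => x ≤ k) S,
              ← filter_union_filter_not_eq (fun x => x ≤ k) S', hSS.1, hSS.2]
      _ = F.card * 2 ^ i := by
          rw [card_product, card_powerset, Nat.card_Ioc, Nat.add_sub_cancel]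
  calc 2 ^ (L - (i + k)) * F'.card ≤ 2 ^ (L - (i + k)) * (F.card * 2 ^ i) :=
        Nat.mul_le_mul_left _ h2
    _ = 2 ^ (L - k) * F.card := by
        rw [show L - k = (L - (i + k)) + i by omega, pow_add]
        ring

/-- the words of the elements of `E` -/
noncomputable def wd (d : Bool) (k : ℕ) (E : Set ℕ) : Finset (Finset ℕ) := by
  classical
  exact ((range (2 ^ k)).filter fun r => r ∈ E).image fun r => par d r k

theorem mem_wd {d : Bool} {k : ℕ} {E : Set ℕ}
    (hE : ∀ m n : ℕ, m ≡ n [MOD 2 ^ k] → (m ∈ E ↔ n ∈ E)) {N : ℕ} (hN : N ∈ E) :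
    par d N k ∈ wd d k E := by
  classical
  unfold wd
  rw [mem_image]
  have h1 : N % 2 ^ k ≡ N [MOD 2 ^ k] := Nat.mod_modEq _ _
  refine ⟨N % 2 ^ k, ?_, par_mod d h1⟩
  rw [mem_filter, mem_range]
  exact ⟨Nat.mod_lt _ (by positivity), (hE _ _ h1).2 hN⟩

open Classical in
theorem card_wd (d : Bool) (k : ℕ) (E : Set ℕ) :
    (wd d k E).card ≤ ((range (2 ^ k)).filter fun r => r ∈ E).card := by
  unfold wd
  convert card_image_le

/-! ### The block estimate -/

open Classical in
theorem hb_subset (hP : PathStatement) {d : Bool} {a k L J D : ℕ} {E : Set ℕ}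
    (hE : ∀ m n : ℕ, m ≡ n [MOD 2 ^ k] → (m ∈ E ↔ n ∈ E)) (hJ : J + 1 ≤ L)
    (hnum : (L : ℝ) + 2 - mu * J + th * D / 2 ≤ a) :
    ((Ico (2 ^ L) (2 ^ (L + 1))).filter fun N => N ∈ HB d a E) ⊆
      ((Ico (2 ^ L) (2 ^ (L + 1))).filter
        fun N => ∃ j ≤ J, (D : ℝ) < |2 * (od d j N : ℝ) - j|) ∪
      (range (J + 1)).biUnion fun i =>
        (Ico (2 ^ L) (2 ^ (L + 1))).filter fun N => par d ((T d)^[i] N) k ∈ wd d k E := by
  intro N hN
  rw [mem_filter] at hN
  obtain ⟨hN1, i, h1, h2, h3⟩ := hN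
  rw [mem_union, mem_filter, mem_biUnion]
  by_cases hi : i ≤ J
  · right
    refine ⟨i, mem_range.2 (by omega), ?_⟩
    rw [mem_filter]
    exact ⟨hN1, mem_wd hE h3⟩
  · left
    refine ⟨hN1, J, le_rfl, ?_⟩
    by_contra hcon
    rw [not_lt] at hcon
    rw [mem_Ico] at hN1
    have h4 := (hP d N J D L hN1.1 hJ hcon).2
    have h5 : (2 : ℝ) ^ a ≤ ((T d)^[J] N : ℝ) := by exact_mod_cast h2 J (by omega)
    have h6 : (N : ℝ) < 2 ^ (L + 1) := by exact_mod_cast hN1.2
    have h7 : 2 * (N : ℝ) * (2 : ℝ) ^ (-(mu * J) + th * D / 2) <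
        2 ^ (L + 2) * (2 : ℝ) ^ (-(mu * J) + th * D / 2) := by
      refine mul_lt_mul_of_pos_right ?_ (by positivity)
      rw [pow_succ]
      linarith
    have h8 : (2 : ℝ) ^ (L + 2) * (2 : ℝ) ^ (-(mu * J) + th * D / 2) ≤ 2 ^ a := by
      rw [← Real.rpow_natCast, ← Real.rpow_natCast, ← Real.rpow_add (by norm_num)]
      refine Real.rpow_le_rpow_of_exponent_le (by norm_num) ?_
      push_cast
      linarith
    linarith

open Classical in
theorem block_bound (hC : CntParStatement) (hB : BadNStatement) (hP : PathStatement) (d : Bool)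
    {a k L J D : ℕ} {E : Set ℕ} {p : ℝ}
    (hE : ∀ m n : ℕ, m ≡ n [MOD 2 ^ k] → (m ∈ E ↔ n ∈ E)) (hJ : J + 1 + k ≤ L)
    (hp : (((range (2 ^ k)).filter fun r => r ∈ E).card : ℝ) ≤ p * 2 ^ k)
    (hnum : (L : ℝ) + 2 - mu * J + th * D / 2 ≤ a) :
    (((Ico (2 ^ L) (2 ^ (L + 1))).filter fun N => N ∈ HB d a E).card : ℝ) ≤
      2 ^ L * (((J : ℝ) + 1) * (2 * Real.exp (-((D : ℝ) ^ 2 / (2 * J)))) + (J + 1) * p) := by
  have h1 := card_le_card (hb_subset hP (d := d) (a := a) (k := k) (L := L) (J := J) (D := D)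
    hE (by omega) hnum)
  have h2 := h1.trans (card_union_le _ _)
  have h3 : (((range (J + 1)).biUnion fun i => (Ico (2 ^ L) (2 ^ (L + 1))).filter
      fun N => par d ((T d)^[i] N) k ∈ wd d k E).card : ℝ) ≤ 2 ^ L * ((J + 1) * p) := by
    have h4 : ((range (J + 1)).biUnion fun i => (Ico (2 ^ L) (2 ^ (L + 1))).filter
        fun N => par d ((T d)^[i] N) k ∈ wd d k E).card ≤ (J + 1) * (2 ^ (L - k) *
          (wd d k E).card) := by
      refine card_biUnion_le.trans ?_
      calc ∑ i ∈ range (J + 1), ((Ico (2 ^ L) (2 ^ (L + 1))).filter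
            fun N => par d ((T d)^[i] N) k ∈ wd d k E).card
          ≤ ∑ i ∈ range (J + 1), 2 ^ (L - k) * (wd d k E).card := by
            refine sum_le_sum fun i hi => ?_
            rw [mem_range] at hi
            convert count_iter hC d (show i + k ≤ L by omega) (wd d k E)
        _ = (J + 1) * (2 ^ (L - k) * (wd d k E).card) := by
            rw [sum_const, card_range, smul_eq_mul]
    have h5 : ((wd d k E).card : ℝ) ≤ p * 2 ^ k := by
      refine le_trans ?_ hp
      exact_mod_cast card_wd d k E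
    calc (((range (J + 1)).biUnion fun i => (Ico (2 ^ L) (2 ^ (L + 1))).filter
        fun N => par d ((T d)^[i] N) k ∈ wd d k E).card : ℝ)
        ≤ (((J + 1) * (2 ^ (L - k) * (wd d k E).card) : ℕ) : ℝ) := by exact_mod_cast h4
      _ = (J + 1) * (2 ^ (L - k) * ((wd d k E).card : ℝ)) := by push_cast; ring
      _ ≤ (J + 1) * (2 ^ (L - k) * (p * 2 ^ k)) := by gcongr
      _ = 2 ^ L * ((J + 1) * p) := by
          have : (2 : ℝ) ^ L = 2 ^ (L - k) * 2 ^ k := by
            rw [← pow_add, Nat.sub_add_cancel (by omega)]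
          rw [this]
          ring
  have h6 := hB.1 d J L D (by omega)
  have h7 : (((Ico (2 ^ L) (2 ^ (L + 1))).filter fun N => N ∈ HB d a E).card : ℝ) ≤
      (((Ico (2 ^ L) (2 ^ (L + 1))).filter
        fun N => ∃ j ≤ J, (D : ℝ) < |2 * (od d j N : ℝ) - j|).card : ℝ) +
      (((range (J + 1)).biUnion fun i => (Ico (2 ^ L) (2 ^ (L + 1))).filter
        fun N => par d ((T d)^[i] N) k ∈ wd d k E).card : ℝ) := by
    exact_mod_cast h2
  refine h7.trans ?_
  rw [mul_add]
  exact add_le_add h6 h3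

end Pool.Agent.Lib.MP_edb5be_nt.TS.H17
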