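import Pool.Agent.Lib.MP_edb5be_nt.TS.H17.BC0
import Pool.Agent.Lib.MP_edb5be_nt.ND.H74.Sandwich

/-!
# Module BC, part 2: all heights, and natural density (helper17)
-/

set_option autoImplicit false

namespace Pool.Agent.Lib.MP_edb5be_nt.TS.H17

open Finset Filter Topology Pool.Agent.Lib.MP_0a5adf_nt.TP Pool.Agent.Lib.MP_edb5be_nt.ND
  Pool.Agent.Lib.MP_edb5be_nt.TS

theorem th_le : th ≤ 8 / 5 := by
  have h1 : Real.logb 2 ((3 : ℝ) ^ 5) ≤ Real.logb 2 ((2 : ℝ) ^ 8) :=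
    Real.logb_le_logb_of_le (by norm_num) (by positivity) (by norm_num)
  rw [Real.logb_pow, Real.logb_pow, Real.logb_self_eq_one (by norm_num)] at h1
  unfold th
  push_cast at h1
  linarith

theorem mu_ge : 1 / 5 ≤ mu := by have := th_le; unfold mu; linarith

/-- the exponential error -/
theorem exp_err (A : ℕ) {a J D : ℕ} (ha : 400 ≤ a) (hJ : J + 1 ≤ 2 * a) (hJ0 : 0 < J)
    (hD : D = a / 100) :
    ((J : ℝ) + 1) * (2 * Real.exp (-((D : ℝ) ^ 2 / (2 * J)))) ≤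
      4 * (A + 1).factorial * 160000 ^ (A + 1) / (a : ℝ) ^ A := by
  have ha' : (400 : ℝ) ≤ a := by exact_mod_cast ha
  have ha0 : (0 : ℝ) < a := by linarith
  have hD1 : (a : ℝ) / 200 ≤ D := by
    have h : a ≤ 200 * D := by omega
    have h' : (a : ℝ) ≤ 200 * D := by exact_mod_cast h
    linarith
  have hJ1 : (J : ℝ) + 1 ≤ 2 * a := by exact_mod_cast hJ
  have hJ2 : (0 : ℝ) < J := by exact_mod_cast hJ0
  have hx0 : 0 < (a : ℝ) / 160000 := by positivity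
  have h1 : (a : ℝ) / 160000 ≤ (D : ℝ) ^ 2 / (2 * J) := by
    rw [le_div_iff₀ (by positivity)]
    have h : ((a : ℝ) / 200) ^ 2 ≤ (D : ℝ) ^ 2 := pow_le_pow_left₀ (by positivity) hD1 2
    nlinarith
  have h2 : Real.exp (-((D : ℝ) ^ 2 / (2 * J))) ≤
      (A + 1).factorial / ((a : ℝ) / 160000) ^ (A + 1) := by
    have h3 := Real.pow_div_factorial_le_exp _ hx0.le (A + 1)
    calc Real.exp (-((D : ℝ) ^ 2 / (2 * J))) ≤ Real.exp (-((a : ℝ) / 160000)) :=
          Real.exp_le_exp.2 (by linarith)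
      _ = 1 / Real.exp ((a : ℝ) / 160000) := by rw [Real.exp_neg, one_div]
      _ ≤ 1 / (((a : ℝ) / 160000) ^ (A + 1) / (A + 1).factorial) :=
          one_div_le_one_div_of_le (by positivity) h3
      _ = _ := by rw [one_div_div]
  calc ((J : ℝ) + 1) * (2 * Real.exp (-((D : ℝ) ^ 2 / (2 * J))))
      ≤ (2 * a) * (2 * ((A + 1).factorial / ((a : ℝ) / 160000) ^ (A + 1))) := by gcongr
    _ = 4 * (A + 1).factorial * 160000 ^ (A + 1) / (a : ℝ) ^ A := by
        rw [div_pow, pow_succ (a : ℝ) A]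
        field_simp
        ring

open Classical in
/-- heights up to `1.22 a` -/
theorem direct (hC : CntParStatement) (hB : BadNStatement) (hP : PathStatement) (A : ℕ) :
    ∃ C : ℝ, 0 < C ∧ ∀ (d : Bool) (a k L : ℕ) (E : Set ℕ) (p : ℝ), 400 ≤ a → k ≤ a / 20 →
      (∀ m n : ℕ, m ≡ n [MOD 2 ^ k] → (m ∈ E ↔ n ∈ E)) →
      (((range (2 ^ k)).filter fun r => r ∈ E).card : ℝ) ≤ p * 2 ^ k →
      a ≤ L + 1 → 100 * L ≤ 122 * a →
      (((Ico (2 ^ L) (2 ^ (L + 1))).filter fun N => N ∈ HB d a E).card : ℝ) ≤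
        2 ^ L * (2 * a * p + C / a ^ A) := by
  refine ⟨4 * (A + 1).factorial * 160000 ^ (A + 1), by positivity, ?_⟩
  intro d a k L E p ha hk hE hp haL hL
  have hp0 : 0 ≤ p := by
    have h1 : (0 : ℝ) ≤ p * 2 ^ k := le_trans (Nat.cast_nonneg _) hp
    exact nonneg_of_mul_nonneg_left h1 (by positivity)
  have hk20 : 20 * k ≤ a := by omega
  obtain ⟨J, hJ⟩ : ∃ J, J = L - k - 1 := ⟨_, rfl⟩
  have hJL : J + 1 + k = L := by omega
  have hJ2 : J + 1 ≤ 2 * a := by omega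
  have haR : (400 : ℝ) ≤ a := by exact_mod_cast ha
  have hnum : (L : ℝ) + 2 - mu * J + th * ((a / 100 : ℕ) : ℝ) / 2 ≤ a := by
    have e1 : (J : ℝ) + 1 + k = L := by exact_mod_cast hJL
    have e2 : (100 : ℝ) * L ≤ 122 * a := by exact_mod_cast hL
    have e3 : (20 : ℝ) * k ≤ a := by exact_mod_cast hk20
    have e4 : (((a / 100 : ℕ) : ℕ) : ℝ) ≤ a / 100 := by
      have : 100 * (a / 100) ≤ a := Nat.mul_div_le a 100
      have h' : (100 : ℝ) * ((a / 100 : ℕ) : ℝ) ≤ a := by exact_mod_cast this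
      linarith
    have e5 := mu_ge
    have e6 := th_le
    have e7 : (1 / 5 : ℝ) * J ≤ mu * J := mul_le_mul_of_nonneg_right e5 (Nat.cast_nonneg _)
    have e8 : th * ((a / 100 : ℕ) : ℝ) ≤ 8 / 5 * ((a / 100 : ℕ) : ℝ) :=
      mul_le_mul_of_nonneg_right e6 (Nat.cast_nonneg _)
    linarith
  have h1 := block_bound hC hB hP d (a := a) (k := k) (L := L) (J := J) (D := a / 100) hE
    (by omega) hp hnum
  refine h1.trans ?_
  have h2 := exp_err A ha hJ2 (by omega : 0 < J) rfl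
  have h3 : ((J : ℝ) + 1) * p ≤ 2 * a * p := by
    refine mul_le_mul_of_nonneg_right ?_ hp0
    exact_mod_cast hJ2
  refine mul_le_mul_of_nonneg_left ?_ (by positivity)
  linarith

open Classical in
/-- real blocks -/
theorem gd_le_blocks {B : Set ℕ} {u β : ℝ} {L : ℕ} (hu : 0 ≤ u) (hL : L = ⌊u⌋₊)
    (h0 : (((Ico (2 ^ L) (2 ^ (L + 1))).filter fun N => N ∈ B).card : ℝ) ≤ 2 ^ L * β)
    (h1 : (((Ico (2 ^ (L + 1)) (2 ^ (L + 1 + 1))).filter fun N => N ∈ B).card : ℝ) ≤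
      2 ^ (L + 1) * β) : Gd B u ≤ 3 * β := by
  have hβ : 0 ≤ β := by
    have h2 : (0 : ℝ) ≤ 2 ^ L * β := le_trans (Nat.cast_nonneg _) h0
    exact nonneg_of_mul_nonneg_right h2 (by positivity)
  have hLu : (L : ℝ) ≤ u := by rw [hL]; exact Nat.floor_le hu
  have huL : u < L + 1 := by rw [hL]; exact Nat.lt_floor_add_one u
  have h2u : (0 : ℝ) < 2 ^ u := by positivity
  have e1 : (2 : ℝ) ^ L ≤ 2 ^ u := by
    rw [← Real.rpow_natCast]
    exact Real.rpow_le_rpow_of_exponent_le (by norm_num) hLu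
  have e2 : (2 : ℝ) ^ (u + 1) ≤ 2 ^ (L + 1 + 1) := by
    rw [← Real.rpow_natCast]
    refine Real.rpow_le_rpow_of_exponent_le (by norm_num) ?_
    push_cast
    linarith
  have hsub : {N : ℕ | N ∈ B ∧ (2 : ℝ) ^ u ≤ N ∧ (N : ℝ) < 2 ^ (u + 1)} ⊆
      (((Ico (2 ^ L) (2 ^ (L + 1))).filter fun N => N ∈ B) ∪
      ((Ico (2 ^ (L + 1)) (2 ^ (L + 1 + 1))).filter fun N => N ∈ B) : Finset ℕ) := by
    rintro N ⟨hN, h3, h4⟩
    have h5 : 2 ^ L ≤ N := by exact_mod_cast e1.trans h3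
    have h6 : N < 2 ^ (L + 1 + 1) := by exact_mod_cast h4.trans_le e2
    rw [mem_coe, mem_union, mem_filter, mem_filter, mem_Ico, mem_Ico]
    by_cases h7 : N < 2 ^ (L + 1)
    · exact Or.inl ⟨⟨h5, h7⟩, hN⟩
    · exact Or.inr ⟨⟨not_lt.1 h7, h6⟩, hN⟩
  have h2 := Set.ncard_le_ncard hsub (Finset.finite_toSet _)
  rw [Set.ncard_coe_finset] at h2
  have h3 : (({N : ℕ | N ∈ B ∧ (2 : ℝ) ^ u ≤ N ∧ (N : ℝ) < 2 ^ (u + 1)}.ncard : ℕ) : ℝ) ≤
      (((Ico (2 ^ L) (2 ^ (L + 1))).filter fun N => N ∈ B).card : ℝ) +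
      (((Ico (2 ^ (L + 1)) (2 ^ (L + 1 + 1))).filter fun N => N ∈ B).card : ℝ) := by
    exact_mod_cast h2.trans (card_union_le _ _)
  unfold Gd
  rw [div_le_iff₀ h2u]
  calc (({N : ℕ | N ∈ B ∧ (2 : ℝ) ^ u ≤ N ∧ (N : ℝ) < 2 ^ (u + 1)}.ncard : ℕ) : ℝ)
      ≤ 2 ^ L * β + 2 ^ (L + 1) * β := h3.trans (add_le_add h0 h1)
    _ = 3 * β * 2 ^ L := by ring
    _ ≤ 3 * β * 2 ^ u := mul_le_mul_of_nonneg_left e1 (by positivity)

open Classical in
/-- all heights -/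
theorem bc_main (hC : CntParStatement) (hB : BadNStatement) (hP : PathStatement)
    (hT : TGPStatement) (hCo : CompStatement) (hL : LipStatement) (A : ℕ) :
    ∃ (C : ℝ) (a₀ : ℕ), 0 < C ∧ ∀ (d : Bool) (a k : ℕ) (E : Set ℕ) (p : ℝ), a₀ ≤ a →
      k ≤ a / 20 → (∀ m n : ℕ, m ≡ n [MOD 2 ^ k] → (m ∈ E ↔ n ∈ E)) →
      (((range (2 ^ k)).filter fun r => r ∈ E).card : ℝ) ≤ p * 2 ^ k →
      ∀ u : ℝ, (a : ℝ) ≤ u + 1 → Gd (HB d a E) u ≤ C * (a * p + 1 / (a : ℝ) ^ A) := by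
  obtain ⟨C1, hC1, hdir⟩ := direct hC hB hP A
  obtain ⟨CT, uT, hCT, hTG⟩ := hT (A + 2)
  obtain ⟨K, u1, hK, hu1, hcomp⟩ := hCo (A + 1) CT (by omega) hCT
  refine ⟨6 + 3 * C1 + K, max 400 (max ⌈uT⌉₊ ⌈u1⌉₊), by positivity, ?_⟩
  intro d a k E p ha hk hE hp u hu
  have ha400 : 400 ≤ a := le_trans (le_max_left _ _) ha
  have haT : uT ≤ a := by
    have h1 : ⌈uT⌉₊ ≤ a := le_trans (le_trans (le_max_left _ _) (le_max_right _ _)) ha
    exact le_trans (Nat.le_ceil _) (by exact_mod_cast h1)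
  have ha1 : u1 ≤ a := by
    have h1 : ⌈u1⌉₊ ≤ a := le_trans (le_trans (le_max_right _ _) (le_max_right _ _)) ha
    exact le_trans (Nat.le_ceil _) (by exact_mod_cast h1)
  have haR : (400 : ℝ) ≤ a := by exact_mod_cast ha400
  have ha0 : (0 : ℝ) < a := by linarith
  have hp0 : 0 ≤ p := by
    have h1 : (0 : ℝ) ≤ p * 2 ^ k := le_trans (Nat.cast_nonneg _) hp
    exact nonneg_of_mul_nonneg_left h1 (by positivity)
  set β : ℝ := 2 * a * p + C1 / a ^ A with hβ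
  have hβ0 : 0 ≤ β := by positivity
  -- low heights
  have hlow : ∀ t : ℝ, (a : ℝ) ≤ t + 1 → t ≤ 23 / 20 * a + 1 → Gd (HB d a E) t ≤ 3 * β := by
    intro t ht1 ht2
    have ht0 : 0 ≤ t := by linarith
    have hf1 : (⌊t⌋₊ : ℝ) ≤ t := Nat.floor_le ht0
    have hf2 : a ≤ ⌊t⌋₊ + 1 := by
      have h1 : a - 1 ≤ ⌊t⌋₊ := by
        refine Nat.le_floor ?_
        rw [Nat.cast_sub (by omega)]
        push_cast
        linarith
      omega
    have hf3 : 100 * (⌊t⌋₊ + 1) ≤ 122 * a := by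
      have h1 : (100 : ℝ) * (⌊t⌋₊ + 1) ≤ 122 * a := by linarith
      exact_mod_cast h1
    exact gd_le_blocks ht0 rfl (hdir d a k _ E p ha400 hk hE hp hf2 (by omega))
      (hdir d a k _ E p ha400 hk hE hp (by omega) hf3)
  have hfin : 3 * β + K / (a : ℝ) ^ A ≤ (6 + 3 * C1 + K) * (a * p + 1 / (a : ℝ) ^ A) := by
    rw [hβ]
    have h1 : 0 ≤ (a : ℝ) * p := by positivity
    have h2 : 0 ≤ 1 / (a : ℝ) ^ A := by positivity
    have e1 : C1 / (a : ℝ) ^ A = C1 * (1 / (a : ℝ) ^ A) := by ring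
    have e2 : K / (a : ℝ) ^ A = K * (1 / (a : ℝ) ^ A) := by ring
    rw [e1, e2]
    have h3 : 0 ≤ C1 * ((a : ℝ) * p) := by positivity
    have h4 : 0 ≤ K * ((a : ℝ) * p) := by positivity
    nlinarith
  refine le_trans ?_ hfin
  have hKA : 0 ≤ K / (a : ℝ) ^ A := by positivity
  rcases le_or_gt u (23 / 20 * a + 1) with hcase | hcase
  · exact (hlow u hu hcase).trans (by linarith)
  · have hbd : ∀ t : ℝ, 0 ≤ t → Gd (HB d a E) t ≤ 2 := by
      intro t ht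
      obtain ⟨-, h2, -⟩ := hL (HB d a E) t 0 ht le_rfl zero_le_one
      refine h2.trans ?_
      have h3 : (1 : ℝ) ≤ 2 ^ t := Real.one_le_rpow (by norm_num) ht
      have h4 : 1 / (2 : ℝ) ^ t ≤ 1 := by
        rw [div_le_one (by positivity)]
        exact h3
      linarith
    have h1 := hcomp (fun t => - Gd (HB d a E) t) 2 (-(3 * β)) (23 / 20 * a) (by linarith)
      (fun t ht => by
        have := hbd t (by linarith)
        show -2 ≤ - Gd (HB d a E) t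
        linarith)
      (fun t ht => by
        have h2 := hTG d (HB d a E) a t 1 (by linarith) (by linarith) (hb_inv d a E)
          (by push_cast; linarith)
        rw [H74.PJ_one] at h2
        have := abs_le.1 h2
        show (- Gd (HB d a E) (t - 1) + - Gd (HB d a E) (t + (th - 1))) / 2 -
          CT / t ^ (A + 1 + 1) ≤ - Gd (HB d a E) t
        linarith [this.1, this.2])
      (fun t ht ht' => by
        have := hlow t (by linarith) ht'
        show -(3 * β) ≤ - Gd (HB d a E) t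
        linarith) u (by linarith)
    have h2 : K / (23 / 20 * (a : ℝ)) ^ (A + 1) ≤ K / (a : ℝ) ^ A := by
      refine div_le_div_of_nonneg_left hK.le (by positivity) ?_
      calc (a : ℝ) ^ A ≤ (a : ℝ) ^ (A + 1) := pow_le_pow_right₀ (by linarith) (Nat.le_succ A)
        _ ≤ (23 / 20 * (a : ℝ)) ^ (A + 1) := pow_le_pow_left₀ (by positivity) (by linarith) _
    have h3 : -(3 * β) - K / (23 / 20 * (a : ℝ)) ^ (A + 1) ≤ - Gd (HB d a E) u := h1
    linarith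

/-! ### Natural density -/

open Classical in
theorem dens_one (B : Set ℕ) (h : ∀ ε : ℝ, 0 < ε → ∃ u₀ : ℕ, ∀ u : ℕ, u₀ ≤ u →
    (((Ico (2 ^ u) (2 ^ (u + 1))).filter fun N => N ∉ B).card : ℝ) ≤ ε * 2 ^ u) :
    HasDensN B 1 := by
  unfold HasDensN
  rw [Metric.tendsto_atTop]
  intro δ hδ
  obtain ⟨u₀, hu₀⟩ := h (δ / 8) (by positivity)
  have hind : ∀ U : ℕ, (((Ico 1 (2 ^ U)).filter fun N => N ∉ B).card : ℝ) ≤
      2 ^ u₀ + δ / 8 * 2 ^ U := by
    intro U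
    induction U with
    | zero => simp; positivity
    | succ U ih =>
      by_cases hU : u₀ ≤ U
      · have h1 : ((Ico 1 (2 ^ (U + 1))).filter fun N => N ∉ B) ⊆
            ((Ico 1 (2 ^ U)).filter fun N => N ∉ B) ∪
            ((Ico (2 ^ U) (2 ^ (U + 1))).filter fun N => N ∉ B) := by
          intro N hN
          rw [mem_filter, mem_Ico] at hN
          rw [mem_union, mem_filter, mem_filter, mem_Ico, mem_Ico]
          by_cases h7 : N < 2 ^ U
          · exact Or.inl ⟨⟨hN.1.1, h7⟩, hN.2⟩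
          · exact Or.inr ⟨⟨not_lt.1 h7, hN.1.2⟩, hN.2⟩
        have h2 : (((Ico 1 (2 ^ (U + 1))).filter fun N => N ∉ B).card : ℝ) ≤
            (((Ico 1 (2 ^ U)).filter fun N => N ∉ B).card : ℝ) +
            (((Ico (2 ^ U) (2 ^ (U + 1))).filter fun N => N ∉ B).card : ℝ) := by
          exact_mod_cast (card_le_card h1).trans (card_union_le _ _)
        have h3 := hu₀ U hU
        have h4 : (2 : ℝ) ^ (U + 1) = 2 * 2 ^ U := by ring
        rw [h4]
        linarith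
      · have h1 : ((Ico 1 (2 ^ (U + 1))).filter fun N => N ∉ B).card ≤ 2 ^ u₀ := by
          refine (card_filter_le _ _).trans ?_
          rw [Nat.card_Ico]
          exact le_trans (Nat.sub_le _ _) (Nat.pow_le_pow_right (by norm_num) (by omega))
        have h2 : (((Ico 1 (2 ^ (U + 1))).filter fun N => N ∉ B).card : ℝ) ≤ 2 ^ u₀ := by
          exact_mod_cast h1
        have h3 : 0 ≤ δ / 8 * (2 : ℝ) ^ (U + 1) := by positivity
        linarith
  refine ⟨max 1 (4 * (2 ^ u₀ + 1) / δ), fun X hX => ?_⟩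
  have hX1 : 1 ≤ X := le_trans (le_max_left _ _) hX
  have hX2 : 4 * (2 ^ u₀ + 1) / δ ≤ X := le_trans (le_max_right _ _) hX
  have hX0 : 0 < X := by linarith
  rw [div_le_iff₀ hδ] at hX2
  obtain ⟨n, hn⟩ : ∃ n, n = ⌊X⌋₊ := ⟨_, rfl⟩
  have hn1 : 1 ≤ n := by rw [hn]; exact Nat.le_floor (by exact_mod_cast hX1)
  have hnX : (n : ℝ) ≤ X := by rw [hn]; exact Nat.floor_le hX0.le
  have hXn : X < n + 1 := by rw [hn]; exact Nat.lt_floor_add_one X
  have hset : {N : ℕ | N ∈ B ∧ 1 ≤ N ∧ (N : ℝ) ≤ X} = ((Icc 1 n).filter fun N => N ∈ B) := by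
    ext N
    rw [mem_coe, mem_filter, mem_Icc, Set.mem_ofPred_eq, hn, Nat.le_floor_iff hX0.le]
    tauto
  rw [hset, Set.ncard_coe_finset]
  have hsum : (((Icc 1 n).filter fun N => N ∈ B).card : ℝ) +
      (((Icc 1 n).filter fun N => N ∉ B).card : ℝ) = n := by
    have := Finset.card_filter_add_card_filter_not (s := Icc 1 n) (fun N => N ∈ B)
    rw [Nat.card_Icc, Nat.add_sub_cancel] at this
    exact_mod_cast this
  have hbad : (((Icc 1 n).filter fun N => N ∉ B).card : ℝ) ≤ 2 ^ u₀ + δ / 4 * n := by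
    have h1 : ((Icc 1 n).filter fun N => N ∉ B) ⊆
        ((Ico 1 (2 ^ (Nat.log 2 n + 1))).filter fun N => N ∉ B) := by
      refine filter_subset_filter _ ?_
      intro N hN
      rw [mem_Icc] at hN
      rw [mem_Ico]
      exact ⟨hN.1, lt_of_le_of_lt hN.2 (Nat.lt_pow_succ_log_self (by norm_num) n)⟩
    have h2 := hind (Nat.log 2 n + 1)
    have h3 : (2 : ℝ) ^ (Nat.log 2 n) ≤ n := by
      exact_mod_cast Nat.pow_log_le_self 2 (by omega : n ≠ 0)
    have h4 : (((Icc 1 n).filter fun N => N ∉ B).card : ℝ) ≤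
        (((Ico 1 (2 ^ (Nat.log 2 n + 1))).filter fun N => N ∉ B).card : ℝ) := by
      exact_mod_cast card_le_card h1
    have h5 : (2 : ℝ) ^ (Nat.log 2 n + 1) = 2 * 2 ^ (Nat.log 2 n) := by ring
    rw [h5] at h2
    nlinarith
  have hcard0 : (0 : ℝ) ≤ (((Icc 1 n).filter fun N => N ∉ B).card : ℝ) := Nat.cast_nonneg _
  have hcB : (((Icc 1 n).filter fun N => N ∈ B).card : ℝ) =
      n - (((Icc 1 n).filter fun N => N ∉ B).card : ℝ) := by linarith
  rw [hcB, Real.dist_eq, abs_lt]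
  have hdn : δ / 4 * n ≤ δ / 4 * X := mul_le_mul_of_nonneg_left hnX (by positivity)
  have h5 : (0 : ℝ) < 2 ^ u₀ := by positivity
  constructor
  · rw [lt_sub_iff_add_lt, lt_div_iff₀ hX0]
    nlinarith
  · rw [sub_lt_iff_lt_add, div_lt_iff₀ hX0]
    nlinarith

theorem bc (hC : CntParStatement) (hB : BadNStatement) (hP : PathStatement)
    (hT : TGPStatement) (hCo : CompStatement) (hL : LipStatement) : BCStatement := by
  classical
  obtain ⟨C, a₀, hC0, hmain⟩ := bc_main hC hB hP hT hCo hL 2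
  refine ⟨max a₀ 1, ?_⟩
  intro d E C' hE l hl
  set K : ℝ := C * (|C'| + 1) with hK
  have hK0 : 0 < K := by positivity
  have hgd : ∀ a : ℕ, max a₀ 1 ≤ a → ∀ u : ℝ, (a : ℝ) ≤ u + 1 →
      Gd (HB d a (E a)) u ≤ K * ((a : ℝ) ^ 2)⁻¹ := by
    intro a ha u hu
    have ha1 : 1 ≤ a := le_trans (le_max_right _ _) ha
    have haR : (1 : ℝ) ≤ a := by exact_mod_cast ha1
    obtain ⟨k, hk, hper, hcard⟩ := hE a ha
    have h1 := hmain d a k (E a) (C' / a ^ 3) (le_trans (le_max_left _ _) ha) hk hper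
      (by convert hcard) u hu
    refine h1.trans ?_
    have h2 : (a : ℝ) * (C' / a ^ 3) = C' * ((a : ℝ) ^ 2)⁻¹ := by
      field_simp
    rw [h2, one_div, hK, mul_assoc]
    refine mul_le_mul_of_nonneg_left ?_ hC0.le
    rw [add_mul, one_mul]
    gcongr
    exact le_abs_self C'
  suffices hG : ∀ G : Set ℕ, G = {N : ℕ | ∀ a : ℕ, l N ≤ a → a ≤ Nat.log 2 N + 1 →
      N ∉ HB d a (E a)} → HasDensN G 1 from hG _ rfl
  intro G hG
  refine dens_one G (fun ε hε => ?_)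
  obtain ⟨M, hM⟩ := exists_nat_ge (max (max a₀ 1 : ℕ) (2 * K / ε) : ℝ)
  have hM1 : max a₀ 1 ≤ M := by exact_mod_cast le_trans (le_max_left _ _) hM
  have hM2 : 2 * K / ε ≤ M := le_trans (le_max_right _ _) hM
  have hM0 : 1 ≤ M := le_trans (le_max_right _ _) hM1
  have hMR : (0 : ℝ) < M := by exact_mod_cast hM0
  obtain ⟨N₀, hN₀⟩ := (hl.eventually_ge_atTop M).exists_forall_of_atTop
  refine ⟨N₀, fun u hu => ?_⟩
  have hsub : ((Ico (2 ^ u) (2 ^ (u + 1))).filter fun N => N ∉ G) ⊆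
      (Ioo (M - 1) (u + 2)).biUnion fun a =>
        (Ico (2 ^ u) (2 ^ (u + 1))).filter fun N => N ∈ HB d a (E a) := by
    intro N hN
    rw [mem_filter, hG, Set.mem_ofPred_eq] at hN
    obtain ⟨hN1, hN2⟩ := hN
    push Not at hN2
    obtain ⟨a, h1, h2, h3⟩ := hN2
    have hN1' := mem_Ico.1 hN1
    have hlog : Nat.log 2 N = u := by
      have h0 : 0 < 2 ^ u := pow_pos (by norm_num) u
      rw [Nat.log_eq_iff (by right; exact ⟨by norm_num, by omega⟩)]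
      exact hN1'
    have hNN : N₀ ≤ N := by
      have : u < 2 ^ u := Nat.lt_two_pow_self
      omega
    have := hN₀ N hNN
    rw [mem_biUnion]
    refine ⟨a, ?_, ?_⟩
    · rw [mem_Ioo]
      omega
    · rw [mem_filter]
      exact ⟨hN1, h3⟩
  have hblock : ∀ a ∈ Ioo (M - 1) (u + 2),
      (((Ico (2 ^ u) (2 ^ (u + 1))).filter fun N => N ∈ HB d a (E a)).card : ℝ) ≤
        2 ^ u * (K * ((a : ℝ) ^ 2)⁻¹) := by
    intro a ha
    rw [mem_Ioo] at ha
    have h1 := hgd a (by omega) u (by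
      have : a ≤ u + 1 := by omega
      exact_mod_cast this)
    unfold Gd at h1
    have h2 : {N : ℕ | N ∈ HB d a (E a) ∧ (2 : ℝ) ^ (u : ℝ) ≤ N ∧ (N : ℝ) < 2 ^ ((u : ℝ) + 1)} =
        ((Ico (2 ^ u) (2 ^ (u + 1))).filter fun N => N ∈ HB d a (E a)) := by
      ext N
      rw [mem_coe, mem_filter, mem_Ico, Set.mem_ofPred_eq]
      have e1 : (2 : ℝ) ^ (u : ℝ) = ((2 ^ u : ℕ) : ℝ) := by
        rw [Real.rpow_natCast]; push_cast; rfl
      have e2 : (2 : ℝ) ^ ((u : ℝ) + 1) = ((2 ^ (u + 1) : ℕ) : ℝ) := by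
        have : ((u : ℝ) + 1) = ((u + 1 : ℕ) : ℝ) := by push_cast; rfl
        rw [this, Real.rpow_natCast]; push_cast; rfl
      rw [e1, e2, Nat.cast_le, Nat.cast_lt]
      tauto
    rw [h2, Set.ncard_coe_finset, Real.rpow_natCast, div_le_iff₀ (by positivity)] at h1
    linarith
  have h1 : (((Ico (2 ^ u) (2 ^ (u + 1))).filter fun N => N ∉ G).card : ℝ) ≤
      ∑ a ∈ Ioo (M - 1) (u + 2), 2 ^ u * (K * ((a : ℝ) ^ 2)⁻¹) := by
    have h2 := (card_le_card hsub).trans card_biUnion_le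
    calc (((Ico (2 ^ u) (2 ^ (u + 1))).filter fun N => N ∉ G).card : ℝ)
        ≤ ((∑ a ∈ Ioo (M - 1) (u + 2),
          ((Ico (2 ^ u) (2 ^ (u + 1))).filter fun N => N ∈ HB d a (E a)).card : ℕ) : ℝ) := by
          exact_mod_cast h2
      _ = ∑ a ∈ Ioo (M - 1) (u + 2),
          (((Ico (2 ^ u) (2 ^ (u + 1))).filter fun N => N ∈ HB d a (E a)).card : ℝ) := by
          push_cast; rfl
      _ ≤ _ := sum_le_sum hblock
  refine h1.trans ?_
  rw [← mul_sum, ← mul_sum]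
  have h2 : (∑ i ∈ Ioo (M - 1) (u + 2), ((i : ℝ) ^ 2)⁻¹) ≤ 2 / M := by
    have := sum_Ioo_inv_sq_le (α := ℝ) (M - 1) (u + 2)
    rwa [show (((M - 1 : ℕ) : ℝ) + 1) = M by
      rw [Nat.cast_sub hM0]; push_cast; ring] at this
  have h3 : K * (∑ i ∈ Ioo (M - 1) (u + 2), ((i : ℝ) ^ 2)⁻¹) ≤ ε := by
    calc K * (∑ i ∈ Ioo (M - 1) (u + 2), ((i : ℝ) ^ 2)⁻¹) ≤ K * (2 / M) :=
          mul_le_mul_of_nonneg_left h2 hK0.le
      _ = 2 * K / M := by ring
      _ ≤ ε := by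
          rw [div_le_iff₀ hMR]
          rw [div_le_iff₀ hε] at hM2
          linarith
  calc (2 : ℝ) ^ u * (K * ∑ i ∈ Ioo (M - 1) (u + 2), ((i : ℝ) ^ 2)⁻¹) ≤ 2 ^ u * ε :=
        mul_le_mul_of_nonneg_left h3 (by positivity)
    _ = ε * 2 ^ u := by ring

end Pool.Agent.Lib.MP_edb5be_nt.TS.H17
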